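import Mathlib
import Pool.Agent.W2helper44.NR.Asm
import Pool.Agent.W2helper44.NR.Span
import Pool.Agent.W2helper98.NR.ISO
import Pool.Agent.W2helper56.NR.SYM

/-!
# Common `ℚ`-form of the `ℓ`-adic monodromy groups: toric ranks `2` modulo `4`

Let `A` be an abelian variety over a number field `F`, `V = H_1(A(ℂ), ℚ)` with a basis indexed by
`ι`, `ψ` the matrix of a Riemann form, `E` the set of the matrices of the endomorphisms of `A` over
the algebraic closure of `F`, `Γ` the absolute Galois group of `F`, `ρ ℓ` its representation on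
`V_ℓ = V ⊗ ℚ_ℓ` and `χ ℓ` the cyclotomic character.  The structure `Known` collects the known
properties of `ρ ℓ` (Weil pairing, Faltings, Hodge-Tate, Pink).

The *strongly irreducible* subspaces `U` (predicate `SI`) of `ℚ_ℓ^alg ⊗ V_ℓ` are the minimal nonzero
subspaces that are stable under a subgroup of finite index of `Γ`.  If `End(A) = ℤ` there is just
one, the whole space.  All of them are self-dual with an alternating pairing exactly if all simple
factors of `A` are of type I or II in Albert's classification.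

The *local operators* are built from the operators `γ - 1`, for the elements `γ` of the group with
`(γ - 1) ^ 2 = 0` (inertia groups at places of bad semistable reduction; for a suitable `γ` the rank of
`γ - 1` is the toric rank) and the slope operators of Frobenius elements.  The defects of a local
operator `N` with `N ^ 2 = 0` on `U` are its rank and the multiplicities of the nonzero
eigenvalues of the `N N'`.

The new condition on `U`: some defect `d` is `2` modulo `4`, there is no odd prime `p` such that `p`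
divides `d` and `4 p` divides `dim U` (or, if `d` is the rank of a `γ - 1`: for every such `p` a
Frobenius element at the same place has an eigenvalue on `U` whose multiplicity is not divisible by
`p`), and the common divisors of the defects are smaller than `dim U / 4` (for instance
`d < dim U / 4`).

Theorem, first part: if this holds for all `U` and all primes `ℓ ≥ ℓ₀` there is an algebraic group
`G ⊆ GSp(V, ψ)` over `ℚ`, given by a set `S` of polynomials over `ℚ`, namely the Lefschetz group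
(the similitudes of `ψ` that commute with `E`), such that `G_{ℚ_ℓ}` is the identity component of the
Zariski closure of `ρ ℓ (Γ')` for all primes `ℓ ≥ ℓ₀` and all subgroups `Γ'` of finite index (all
finite extensions of `F`).

Second part (`End(A) = ℤ`, `g = dim A`): it is enough that `A` has one place of semistable reduction
with toric rank `t < g / 2`, `t = 2` modulo `4`, such that `g` is odd or no odd prime divides both `t`
and `g`.  Then `G = GSp(V, ψ)`.
-/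

set_option autoImplicit false

namespace Pool.Agent.Results.MP_e965d0_ag.EvenToricRanks

open Module Pool.Agent.W528.ZC Pool.Agent.Y144.QF Pool.Agent.W2helper44.NR

noncomputable section

/-- The representation `ρ` on the `ℓ`-adic Tate module has the known properties (`Known`), and
`HasEvenPlaces`. -/
def GoodAt {ι : Type} [Fintype ι] [DecidableEq ι] {Γ : Type} [Group Γ] (ψ : Matrix ι ι ℚ)
    (E : Set (Matrix ι ι ℚ)) (ℓ : ℕ) [Fact ℓ.Prime] (ρ : Γ →* Matrix ι ι ℚ_[ℓ])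
    (χ : Γ →* ℚ_[ℓ]) : Prop :=
  Known (AlgebraicClosure ℚ_[ℓ]) ρ χ (mapQ ℚ_[ℓ] ψ) (mapQ ℚ_[ℓ] '' E) ∧
    HasEvenPlaces (repM ρ (AlgebraicClosure ℚ_[ℓ]))
      ((algebraMap ℚ_[ℓ] (AlgebraicClosure ℚ_[ℓ])).toMonoidHom.comp χ)

theorem result {ι : Type} [Fintype ι] [DecidableEq ι] (ψ : Matrix ι ι ℚ)
    (halt : ψ.transpose = -ψ) (hψ : IsUnit ψ.det) (E : Set (Matrix ι ι ℚ))
    {Γ : Type} [Group Γ] (ρ : ∀ (ℓ : ℕ) [Fact ℓ.Prime], Γ →* Matrix ι ι ℚ_[ℓ])
    (χ : ∀ (ℓ : ℕ) [Fact ℓ.Prime], Γ →* ℚ_[ℓ]) (ℓ₀ : ℕ) :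
    ((∀ (ℓ : ℕ) [Fact ℓ.Prime], ℓ₀ ≤ ℓ → GoodAt ψ E ℓ (ρ ℓ) (χ ℓ)) →
      ∃ S : Set (MvPolynomial (ι × ι) ℚ),
        (∀ (L : Type) [Field L] [Algebra ℚ L] (g : Matrix ι ι L), IsUnit g.det →
          (IsZeroOf S g ↔ InLefschetz ψ E g)) ∧
        ∀ (ℓ : ℕ) [Fact ℓ.Prime], ℓ₀ ≤ ℓ → ∀ Γ' : Subgroup Γ, Γ'.FiniteIndex →
          ∀ g : Matrix ι ι (AlgebraicClosure ℚ_[ℓ]), IsUnit g.det →
            (InIdentityComponent ((ρ ℓ).comp Γ'.subtype) g ↔ IsZeroOf S g)) ∧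
    ((∀ e ∈ E, ∃ q : ℚ, e = q • (1 : Matrix ι ι ℚ)) → ∀ t : ℕ,
      IsEvenPrime t (Fintype.card ι) → 4 * t < Fintype.card ι →
      (∀ (ℓ : ℕ) [Fact ℓ.Prime], ℓ₀ ≤ ℓ →
        Known (AlgebraicClosure ℚ_[ℓ]) (ρ ℓ) (χ ℓ) (mapQ ℚ_[ℓ] ψ) (mapQ ℚ_[ℓ] '' E) ∧
        ∃ γ : Γ, (ρ ℓ γ - 1) * (ρ ℓ γ - 1) = 0 ∧ (ρ ℓ γ - 1).rank = t) →
      ∀ (ℓ : ℕ) [Fact ℓ.Prime], ℓ₀ ≤ ℓ → ∀ Γ' : Subgroup Γ, Γ'.FiniteIndex →
        ∀ g : Matrix ι ι (AlgebraicClosure ℚ_[ℓ]), IsUnit g.det →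
          (InIdentityComponent ((ρ ℓ).comp Γ'.subtype) g ↔
            ∃ c : AlgebraicClosure ℚ_[ℓ], c ≠ 0 ∧
              g.transpose * mapQ (AlgebraicClosure ℚ_[ℓ]) ψ * g =
                c • mapQ (AlgebraicClosure ℚ_[ℓ]) ψ)) := by
  have main : (∀ (ℓ : ℕ) [Fact ℓ.Prime], ℓ₀ ≤ ℓ → GoodAt ψ E ℓ (ρ ℓ) (χ ℓ)) →
      ∃ S : Set (MvPolynomial (ι × ι) ℚ),
        (∀ (L : Type) [Field L] [Algebra ℚ L] (g : Matrix ι ι L), IsUnit g.det →
          (IsZeroOf S g ↔ InLefschetz ψ E g)) ∧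
        ∀ (ℓ : ℕ) [Fact ℓ.Prime], ℓ₀ ≤ ℓ → ∀ Γ' : Subgroup Γ, Γ'.FiniteIndex →
          ∀ g : Matrix ι ι (AlgebraicClosure ℚ_[ℓ]), IsUnit g.det →
            (InIdentityComponent ((ρ ℓ).comp Γ'.subtype) g ↔ IsZeroOf S g) := by
    intro hgood
    refine common_form ψ hψ E ρ χ ℓ₀ fun ℓ _ hℓ => ⟨(hgood ℓ hℓ).1, ?_⟩
    exact hasOne_of_even p_ISO p_SYM p_SPAN (unit_mapQ hψ ℓ) (hgood ℓ hℓ).1 (hgood ℓ hℓ).2
  refine ⟨main, fun hE t ht h4 hgood => ?_⟩
  obtain ⟨S, hS1, hS2⟩ := main fun ℓ _ hℓ => by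
    obtain ⟨hK, γ, hγ, hrk⟩ := hgood ℓ hℓ
    refine ⟨hK, even_of_scalar hK (unit_mapQ hψ ℓ) ?_ ?_ ht h4 hγ hrk⟩
    · unfold mapQ
      rw [← Matrix.transpose_map, halt]
      ext i j
      simp
    · rintro _ ⟨e, he, rfl⟩
      obtain ⟨q, rfl⟩ := hE e he
      refine ⟨algebraMap ℚ ℚ_[ℓ] q, ?_⟩
      ext i j
      by_cases hij : i = j <;> simp [mapQ, Matrix.one_apply, hij]
  intro ℓ _ hℓ Γ' hΓ' g hg
  rw [hS2 ℓ hℓ Γ' hΓ' g hg, hS1 (AlgebraicClosure ℚ_[ℓ]) g hg]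
  refine ⟨fun h => h.1, fun h => ⟨h, fun e he => ?_⟩⟩
  obtain ⟨q, rfl⟩ := hE e he
  have h1 : mapQ (AlgebraicClosure ℚ_[ℓ]) (q • (1 : Matrix ι ι ℚ)) =
      (algebraMap ℚ (AlgebraicClosure ℚ_[ℓ]) q) • (1 : Matrix ι ι (AlgebraicClosure ℚ_[ℓ])) := by
    ext i j
    by_cases hij : i = j <;> simp [mapQ, Matrix.one_apply, hij]
  rw [h1, mul_smul_comm, smul_mul_assoc, mul_one, one_mul]

end

end Pool.Agent.Results.MP_e965d0_ag.EvenToricRanks
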