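import Mathlib
import Pool.Agent.W2helper35.QF.Fin
import Pool.Agent.W2helper24.QF.Coef
import Pool.Agent.TH776.FM.FourMain
import Pool.Agent.TH776.FM.Slopes
import Pool.Agent.TH776.FM.MTDefs
import Pool.Agent.W516.MT.AllFinal

/-!
# Common `ℚ`-form of the `ℓ`-adic monodromy groups of abelian varieties of any type, from the slopes
# of one Frobenius polynomial

Let `A` be an abelian variety over a number field `F ⊂ ℂ` (there is no condition on the
endomorphisms: factors of type IV are allowed). Suppose that for ONE place of good reduction, with
residue field of `p ^ a` elements, the characteristic polynomial of the Frobenius element is the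
product of the minimal polynomials of Weil numbers `π i` which generate CM fields `K i` of any
degree, with any Galois groups. For an embedding `τ` of `K i` in an algebraic closure of `ℚ_p` let
`dev τ` be the deviation `2 v(τ π) - a` of the slope from the middle slope. Suppose:

* (`Independent`) for every `i` some automorphism of the complex numbers conjugates the embeddings of
  `K i` and fixes those of the other `K i'` (no condition for one field);
* each `π i` has one of the following properties. Let `v` be `dev`, or more generally a combination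
  with integral values of `dev` and of one of its conjugates `dev ∘ σ` (`IsPencil`).
  - (`FewValues`) for some prime number `r`, the values prime to `r` of some `v` are those of one pair
    of conjugate embeddings; or the pairs `x`, `y` of embeddings for which the values prime to `r` of
    some `v` are those of `x`, `y` and their conjugates agree simultaneously on no element of the
    maximal real subfield `K⁺` except the rational numbers;
  - (`FewEvenValues`) some `v` is odd, except for one pair of conjugate embeddings, or for two pairs
    whose embeddings agree only on `ℚ` in `K⁺` (for two pairs, and `[K : ℚ]` four modulo eight, it is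
    also supposed that `K` has no real quadratic subfield);
* if the norm of `π i` to some imaginary quadratic subfield of `K i` is supersingular (`HasWeil`), then
  the degree of `K i` is different from two, four and eight.

**Theorem.** There is an algebraic group `G ⊆ GSp(V, ψ)` over `ℚ`, namely the Mumford-Tate group of
`A` (which need not be the Lefschetz group), such that `G_{ℚ_ℓ}` is the identity component of the
Zariski closure of `ρ_ℓ(G_K)` for all finite extensions `K` of `F` and all prime numbers `ℓ ≥ ℓ₀` (for
which the Frobenius element has this polynomial). This is the statement of Q1 for these abelian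
varieties.

Second part: the slopes `0`, `a / 2`, `a`, with the middle slope at one or two pairs of embeddings
only, as above, have the property `FewEvenValues`. For instance: the dimension `g` of `A` is odd and
greater than one, the Frobenius polynomial of `A` at one place is irreducible, the reduction has
`p`-rank `g - 1` or `g - 2` and slopes `0`, `1 / 2`, `1` (`a = 1`); for `g - 2` it is also supposed that
the field `K⁺` of degree `g` has no proper subfield except `ℚ`. The same is true for even `g > 4`
and `p`-rank `g - 1`.

The formal statement. `W = H_1(A, ℚ)`, `T` is the tangent space at the origin and `per : W → T` the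
inclusion (`IsRationalStructure`), `ω₀` a Riemann form (`IsRiemannForm`), `b` a basis of `W`. `Γ` is
the absolute Galois group of `F` and `ρ ℓ` its action on the rational Tate module `ℚ_ℓ ⊗ W`; `gal b
(ρ ℓ)` is this action in terms of matrices. The structure `IsTateModule` collects known theorems
(Weil pairing, Faltings, Chevalley, Deligne, the Mumford-Tate conjecture for the centres, Bogomolov).
The group `G` is given by a set `S` of polynomials over `ℚ` in the entries of a matrix; its points over
all fields of characteristic zero are the matrices which multiply, for some `c ≠ 0`, the Hodge classes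
in `(H^1)^{⊗ 2 m}(m)` by `c ^ m` (`InMumfordTate`). `InIdentityComponent`: all polynomials over an
algebraic closure of `ℚ_ℓ` that vanish on the image of a subgroup of finite index vanish at `g`. The
equality of the groups is the equality of their points over the algebraic closure.

The conditions on the slopes exclude nontrivial multiplicative relations of length four (`onlyTrivial` in
`Pool.Agent.TH776.FM.FourMain`), so that all Tate classes are combinations of Hodge classes
(`mt_of_four`); the passage to the Zariski closures is the theorem `common` of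
`Pool.Agent.W2helper35.QF`.
-/

set_option autoImplicit false

namespace Pool.Agent.Results.MP_e965d0_ag.FewSlopes

open NumberField Module TensorProduct Pool.Agent.H204R3.GP Pool.Agent.W528.ZC Pool.Agent.W516.MTD
  Pool.Agent.W516.FT Pool.Agent.W527.TateRing Pool.Agent.TH776.FS Pool.Agent.TH776.FM
  Pool.Agent.W2helper35.QF

/-- **Common `ℚ`-form of the `ℓ`-adic monodromy groups** from the slopes of one Frobenius
polynomial. -/
theorem result (p : ℕ) [Fact p.Prime] (a : ℕ) :
    (∀ {κ : Type} [Fintype κ] (X : κ → WeilNumber p a), Independent X →
      (∀ i, FewValues (X i) ∨ FewEvenValues (X i)) →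
      (∀ i, HasWeil (X i) → finrank ℚ (X i).K ≠ 2 ∧ finrank ℚ (X i).K ≠ 4 ∧
        finrank ℚ (X i).K ≠ 8) →
      -- the complex torus `A(ℂ)` with a Riemann form and a basis of `H_1(A, ℚ)`
      ∀ {W T : Type} [AddCommGroup W] [Module ℚ W] [FiniteDimensional ℚ W] [AddCommGroup T]
        [Module ℂ T] (per : W →+ T) (_ : IsRationalStructure per)
        (ω₀ : W →ₗ[ℚ] W →ₗ[ℚ] ℚ) (_ : IsRiemannForm per ω₀)
        {ι : Type} [Fintype ι] [DecidableEq ι] [Nonempty ι] (b : Basis ι ℚ W)
        -- the Galois group and its action on the Tate modules
        {Γ : Type} [Group Γ]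
        (ρ : ∀ (ℓ : ℕ) [Fact ℓ.Prime], Representation ℚ_[ℓ] Γ (ℚ_[ℓ] ⊗[ℚ] W))
        (χ : ∀ (ℓ : ℕ) [Fact ℓ.Prime], Γ →* ℚ_[ℓ]) (ℓ₀ : ℕ),
        (∀ (ℓ : ℕ) [Fact ℓ.Prime], ℓ₀ ≤ ℓ → IsTateModule per ω₀ b ℓ (ρ ℓ) (χ ℓ)) →
        -- the Frobenius element
        (∀ (ℓ : ℕ) [Fact ℓ.Prime], ℓ₀ ≤ ℓ → ∃ γ : Γ, χ ℓ γ = (p ^ a : ℕ) ∧
          (ρ ℓ γ).charpoly = (∏ i, minpoly ℚ (X i).π).map (algebraMap ℚ ℚ_[ℓ])) →
        ∃ S : Set (MvPolynomial (ι × ι) ℚ),
          (∀ (L : Type) [Field L] [Algebra ℚ L] (g : Matrix ι ι L), IsUnit g.det →
            (IsZeroOf S g ↔ InMumfordTate per b g)) ∧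
          ∀ (ℓ : ℕ) [Fact ℓ.Prime], ℓ₀ ≤ ℓ → ∀ Γ' : Subgroup Γ, Γ'.FiniteIndex →
            ∀ g : Matrix ι ι (AlgebraicClosure ℚ_[ℓ]), IsUnit g.det →
              (InIdentityComponent ((gal b (ρ ℓ)).comp Γ'.subtype) g ↔ IsZeroOf S g)) ∧
    (0 < a → ∀ (X : WeilNumber p a) (x y : X.K →+* PadicAlgCl p), MiddleSlopes X x y →
      FewEvenValues X) := by
  refine ⟨?_, fun ha X x y h => fewEvenValues_of_middle ha x y h.1 h.2.1 h.2.2⟩
  intro κ _ X hind hX hdeg W T _ _ _ _ _ per hper ω₀ hω₀ ι _ _ _ b Γ _ ρ χ ℓ₀ hT hfrob
  refine common Pool.Agent.W2helper24.QF.p_coef per hper ω₀ hω₀ b ρ χ ℓ₀ hT fun ℓ _ hℓ m φ hφ => ?_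
  obtain ⟨ω, h1, h2⟩ := (hT ℓ hℓ).weil
  obtain ⟨γ, hχ, hγ⟩ := hfrob ℓ hℓ
  obtain ⟨halt, hnd⟩ := extension hper hω₀ b ω h1
  exact Pool.Agent.W516.MTM.mt_of_four per (ρ ℓ) (χ ℓ) ω₀ ω
    (Pool.Agent.W516.MTM.riemann_hodge per ω₀ hω₀) (fun u v => by rw [h1, eq_ratCast]) h2
    (hT ℓ hℓ).deligne hper halt hnd (hT ℓ hℓ).semisimple (hT ℓ hℓ).faltings (hT ℓ hℓ).centres γ hχ
    (separable_of_independent hind) hγ (onlyTrivial hX hind hdeg) m φ hφ

end Pool.Agent.Results.MP_e965d0_ag.FewSlopes
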