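import Mathlib
import Pool.Agent.W2helper35.QF.Fin
import Pool.Agent.W2helper24.QF.Coef

/-!
# Common `ℚ`-form of the `ℓ`-adic monodromy groups of abelian varieties with one Frobenius
# polynomial without exceptional relations of length four; type IV and exceptional Hodge classes
# allowed

Let `A` be an abelian variety over a number field `F ⊂ ℂ`, of positive dimension. Suppose that `A` has
good reduction at ONE place `v`, with residue field of `q` elements and characteristic polynomial `P`
of the Frobenius element, such that

* `P` has no multiple roots;
* for complex roots `a`, `b`, `c`, `d` of `P` with `a b c d = ζ q ^ 2`, `ζ` a root of unity, the four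
  roots fall into two pairs with product `q`.

Theorem: there is an algebraic group `G ⊆ GSp(V, ψ)` over `ℚ`, `V = H_1(A(ℂ), ℚ)`, namely the
Mumford-Tate group of `A`, such that `G_{ℚ_ℓ}` is the identity component of the Zariski closure of
`ρ_ℓ(G_K)` for all finite extensions `K` of `F` and all prime numbers `ℓ ≥ ℓ₀`. Here `ℓ₀` is any
number such that the Frobenius element at `v` has the characteristic polynomial `P` on `V_ℓ` for
`ℓ ≥ ℓ₀`, for instance `p + 1` with `v` above `p`. So this is the statement of Q1 for all these
abelian varieties.

In all results of the starting files on this problem the common `ℚ`-form is the (connected) Lefschetz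
group, the group of all similitudes that commute with the endomorphisms, and the theorems about the
groups themselves are restricted to the types I and II. Here all simple factors of type I and of type
IV with commutative endomorphism algebra are possible (the hypothesis on `P` implies that
`End(A) ⊗ ℚ`, over the algebraic closure, is commutative), and the group can be smaller than the
Lefschetz group: for instance for the abelian varieties of Weil type of dimension greater than four
the Weil classes, which are exceptional Hodge and Tate classes, do not contradict the hypotheses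
(they give relations of length at least six between the Frobenius eigenvalues).

The formal statement. `W = H_1(A, ℚ)`, `T` is the tangent space at the origin and `per : W → T` the
inclusion (`IsRationalStructure`), `ω₀` a Riemann form (`IsRiemannForm`), `b` a basis of `W`. `Γ` is
the absolute Galois group of `F` and `ρ ℓ` its action on the rational Tate module `ℚ_ℓ ⊗ W`; `gal b
(ρ ℓ)` is this action in terms of matrices. The structure `IsTateModule` collects known theorems:
Weil pairing, Faltings (semisimplicity, endomorphisms), Chevalley (the tensor powers are semisimple),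
Deligne (Hodge classes are Tate classes), Vasiu and Ullmo-Yafaev (the Mumford-Tate conjecture for the
centres), Bogomolov (homotheties).

The group `G` is given by a set `S` of polynomials over `ℚ` in the entries of a matrix. For all fields
`L` of characteristic zero the invertible zeros of `S` are the matrices which multiply, for some
`c ≠ 0`, all Hodge classes in `(H^1)^{⊗ 2 m}(m)` by `c ^ m`, for all `m` (`InMumfordTate`). The
predicate `InIdentityComponent` (of the starting files) says that all polynomials, with coefficients
in an algebraic closure `Ω` of `ℚ_ℓ`, that vanish on the image of a subgroup of finite index vanish at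
`g`; these `g` are the points of the identity component. The equality of the groups is the equality
of their points over `Ω`.

Idea of the proof. (1) By a theorem of the starting files (`mt_of_four`) all Tate classes are linear
combinations of Hodge classes under the hypothesis on `P`. (2) New here: the passage to the groups.
If the homotheties belong to the identity component `Z` of the Zariski closure, the ideal of `Z` is
homogeneous. The polynomials of degree `j` are the images of the matrices `C` over the index set
`ι ^ j`, and those which vanish on the image of a subgroup `Δ` form a `Δ`-stable space `J` of such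
matrices. A `Δ`-equivariant projection to `J` consists of blocks, which are matrices that commute
with the `j`-th tensor powers of the elements of `Δ`, that is Tate classes in `(H^1)^{⊗ 2 j}(j)` by
means of the Weil pairing. So by (1) the points `g` of `G` commute with all the blocks, and the
evaluation of the projection at the unit element shows that the polynomials in the ideal of `Z` vanish
at `g`.
-/

set_option autoImplicit false

namespace Pool.Agent.Results.MP_e965d0_ag.MumfordTateForm

open Module TensorProduct Pool.Agent.W528.ZC Pool.Agent.W516.MTD Pool.Agent.W516.FT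
  Pool.Agent.W2helper35.QF

/-- **Common `ℚ`-form of the `ℓ`-adic monodromy groups** for abelian varieties with one Frobenius
polynomial without exceptional relations of length four. -/
theorem result
    -- the complex torus `A(ℂ)` with a Riemann form and a basis of `H_1(A, ℚ)`
    {W T : Type} [AddCommGroup W] [Module ℚ W] [FiniteDimensional ℚ W] [AddCommGroup T]
    [Module ℂ T] (per : W →+ T) (hper : IsRationalStructure per)
    (ω₀ : W →ₗ[ℚ] W →ₗ[ℚ] ℚ) (hω₀ : IsRiemannForm per ω₀)
    {ι : Type} [Fintype ι] [DecidableEq ι] [Nonempty ι] (b : Basis ι ℚ W)
    -- the Galois group and its action on the Tate modules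
    {Γ : Type} [Group Γ] (ρ : ∀ (ℓ : ℕ) [Fact ℓ.Prime], Representation ℚ_[ℓ] Γ (ℚ_[ℓ] ⊗[ℚ] W))
    (χ : ∀ (ℓ : ℕ) [Fact ℓ.Prime], Γ →* ℚ_[ℓ]) (ℓ₀ : ℕ)
    (hT : ∀ (ℓ : ℕ) [Fact ℓ.Prime], ℓ₀ ≤ ℓ → IsTateModule per ω₀ b ℓ (ρ ℓ) (χ ℓ))
    -- the Frobenius element
    (q : ℕ) (P : Polynomial ℚ) (hP : P.Separable) (hfour : OnlyTrivialRelationsOfLengthFour P q)
    (hfrob : ∀ (ℓ : ℕ) [Fact ℓ.Prime], ℓ₀ ≤ ℓ → ∃ γ : Γ, χ ℓ γ = q ∧
      (ρ ℓ γ).charpoly = P.map (algebraMap ℚ ℚ_[ℓ])) :
    ∃ S : Set (MvPolynomial (ι × ι) ℚ),
      (∀ (L : Type) [Field L] [Algebra ℚ L] (g : Matrix ι ι L), IsUnit g.det →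
        (IsZeroOf S g ↔ InMumfordTate per b g)) ∧
      ∀ (ℓ : ℕ) [Fact ℓ.Prime], ℓ₀ ≤ ℓ → ∀ Γ' : Subgroup Γ, Γ'.FiniteIndex →
        ∀ g : Matrix ι ι (AlgebraicClosure ℚ_[ℓ]), IsUnit g.det →
          (InIdentityComponent ((gal b (ρ ℓ)).comp Γ'.subtype) g ↔ IsZeroOf S g) := by
  refine common Pool.Agent.W2helper24.QF.p_coef per hper ω₀ hω₀ b ρ χ ℓ₀ hT fun ℓ _ hℓ m φ hφ => ?_
  obtain ⟨ω, h1, h2⟩ := (hT ℓ hℓ).weil
  obtain ⟨γ, hχ, hγ⟩ := hfrob ℓ hℓ
  obtain ⟨halt, hnd⟩ := extension hper hω₀ b ω h1
  exact Pool.Agent.W516.MTM.mt_of_four per (ρ ℓ) (χ ℓ) ω₀ ω
    (Pool.Agent.W516.MTM.riemann_hodge per ω₀ hω₀) (fun u v => by rw [h1, eq_ratCast]) h2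
    (hT ℓ hℓ).deligne hper halt hnd (hT ℓ hℓ).semisimple (hT ℓ hℓ).faltings (hT ℓ hℓ).centres γ hχ
    hP hγ hfour m φ hφ

end Pool.Agent.Results.MP_e965d0_ag.MumfordTateForm
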